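import Pool.Agent.H66.AAS.StepA
import Pool.Agent.H66.AAS.StepB

set_option autoImplicit false

open Finset Filter

namespace Pool.Agent.Results.MP_c59857_nt.AlmostAllScales

/-- For every `k` there is `κ > 0` such that, for all shifts, all exponents of which exactly
`k + 1` are odd, and all residue classes, the partial sums of the product of Chowla's conjecture
beat the trivial bound by the factor `1 - κ` at all scales `N` outside a set of upper logarithmic
Banach density zero. -/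
theorem result (k : ℕ) : ∃ κ : ℝ, 0 < κ ∧
    ∀ (r : ℕ) (α : Fin r → ℤ) (ε : Fin r → ℕ) (q n₀ : ℕ), Function.Injective α →
      (∀ i, 1 ≤ ε i) → ((Finset.univ : Finset (Fin r)).filter (fun i => Odd (ε i))).card = k + 1 →
      0 < q → ∀ ρ : ℝ, 0 < ρ → ∃ K : ℕ, ∀ x y : ℕ, 0 < x → K * x ≤ y →
        ∑ N ∈ (Finset.Icc x y).filter (fun N : ℕ =>
          (1 - κ) * (∑ n ∈ (Finset.Icc 1 N).filter (fun n => n ≡ n₀ [MOD q]),
            |∏ i, ((ArithmeticFunction.moebius (((n : ℤ) + α i).toNat) : ℤ) : ℝ) ^ ε i|)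
            < |∑ n ∈ (Finset.Icc 1 N).filter (fun n => n ≡ n₀ [MOD q]),
            ∏ i, ((ArithmeticFunction.moebius (((n : ℤ) + α i).toNat) : ℤ) : ℝ) ^ ε i|),
          (1 : ℝ) / N ≤ ρ * Real.log (y / x) := by
  classical
  obtain ⟨κ, hκ, h⟩ := Pool.Agent.H66.AAS.stepA k
  refine ⟨κ, hκ, ?_⟩
  intro r α ε q n₀ hα hε hodd hq ρ hρ
  obtain ⟨K, hK⟩ := Pool.Agent.H66.AAS.banach (Pool.Agent.H66.AAS.BadS α ε q n₀ κ)
    (h r α ε q n₀ hα hε hodd hq) ρ hρ
  refine ⟨K, fun x y hx hxy => ?_⟩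
  refine le_trans (le_of_eq ?_) (hK x y hx hxy)
  refine Finset.sum_congr ?_ fun _ _ => rfl
  ext N
  rw [Finset.mem_filter, Finset.mem_filter]
  rfl

end Pool.Agent.Results.MP_c59857_nt.AlmostAllScales
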