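import Pool.Agent.H25.NW.Uni

/-!
# The class group of the `d`-th cyclotomic field has large `κ`-torsion
-/

set_option autoImplicit false

namespace Pool.Agent.Results.MP_4d5ac9_nt.ClassTorsion

/-- Let `q = r^e >= 33` with `r` prime, `p` prime, `d >= 4`, `k > 1`, and suppose
`(q^d - 1)/(q - 1) = p^k`. Let `κ` be an odd prime dividing `k` and `r - 1`. Then at least `d`
elements `c` of the class group of the `d`-th cyclotomic field satisfy `c^κ = 1`, or `κ = 3`,
`r` is not `d`, no power of `r` is `-1` modulo `d`, and at least three elements do. -/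
theorem result {r e d p k κ : ℕ} (hr : r.Prime) (he : 1 ≤ e) (hp : p.Prime) (hd : 4 ≤ d)
    (hk : 1 < k) (hκ : κ.Prime) (hκ2 : κ ≠ 2) (hκk : κ ∣ k) (hκr : κ ∣ r - 1)
    (hq : 33 ≤ r ^ e) (h : ((r ^ e) ^ d - 1) / (r ^ e - 1) = p ^ k) :
    d ≤ Nat.card {c : ClassGroup (NumberField.RingOfIntegers (CyclotomicField d ℚ)) //
        c ^ κ = 1} ∨
      (κ = 3 ∧ r ≠ d ∧ (∀ j : ℕ, ¬ d ∣ r ^ j + 1) ∧
        3 ≤ Nat.card {c : ClassGroup (NumberField.RingOfIntegers (CyclotomicField d ℚ)) //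
          c ^ κ = 1}) :=
  Pool.Agent.H25.NW.classTorsion hr he hp hd hk hκ hκ2 hκk hκr hq h

end Pool.Agent.Results.MP_4d5ac9_nt.ClassTorsion
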