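import Pool.Agent.H92.EX.All

/-!
# MP_34b97f_an: random signs with arbitrary dependence

Choose the signs at the primes at random, one prime after the other, with arbitrary dependence:
`ξ j` marks the prime `p_j` with index `j` if its sign is `-1`. Let `bias P ξ j` be the absolute
value of the conditional expectation of the sign of `p_j`, given the signs of the smaller primes.
If for every `0 < η < 1` almost surely the sum of `bias P ξ j / p_j` over the primes
`N^η < p_j ≤ N` tends to `0`, then almost surely the completely multiplicative function with these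
signs is generic for the Bernoulli measure, and every multiplicative function with values in
`[-1,1]` with these signs at the primes is generic for a measure as predicted by Q1, which is its
only Furstenberg system.
-/

open MeasureTheory ProbabilityTheory Filter Topology Finset
open Pool.Agent.H89.MT Pool.Agent.H92.RR Pool.Agent.H92.EX

universe u

theorem Pool.Agent.H24.Kept.DependentSigns.result
    {Ω : Type u} [MeasurableSpace Ω] (P : Measure Ω) [IsProbabilityMeasure P]
    (ξ : Ω → ℕ → Bool) (hξ : ∀ j, Measurable fun ω => ξ ω j)
    (h : ∀ η : ℝ, 0 < η → η < 1 → ∀ᵐ ω ∂P, Tendsto (fun N : ℕ =>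
      ∑ j ∈ (range N).filter (fun j => (N : ℝ) ^ η < (Nat.nth Nat.Prime j : ℝ) ∧
        Nat.nth Nat.Prime j ≤ N), bias P ξ j ω / (Nat.nth Nat.Prime j : ℝ)) atTop (𝓝 0)) :
    ∀ᵐ ω ∂P, Generic (cm (ξ ω)) bern ∧
      ∀ u : ℕ → I1, IsMult u → sgseq u = ξ ω →
        ∃ κ : Measure X, Pred u κ ∧ Generic u κ ∧ ∀ κ' : Measure X, QuasiGeneric u κ' ↔ κ' = κ :=
  all_MAIN2.{u}.2.2.2 Ω P ξ hξ h
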