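import Pool.Agent.H88.PD.Scale
import Pool.Agent.H88.PD.Dens

/-!
MP_35c1fe_nt: perfect difference sets, growth at every scale and on positive upper density.
-/

set_option autoImplicit false

namespace Pool.Agent.Results.MP_35c1fe_nt.EveryScale

open Filter Pool.Agent.H88.PD

/-- The class of the question: the non-decreasing functions `G` such that for every perfect
difference set `A` there is `c > 0` with `a_n ≥ c n G(n)` for infinitely many `n ≥ 1`, where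
`a_n` is the larger element of the unique pair of elements of `A` with difference `n`. -/
def growthClass : Set (ℕ → ℝ) :=
  {G | Monotone G ∧ ∀ A : Set ℕ, IsPerfectDifferenceSet A → ∃ c : ℝ, 0 < c ∧
    {n : ℕ | 1 ≤ n ∧ ∃ a ∈ A, ∃ b ∈ A, a = b + n ∧ c * n * G n ≤ a}.Infinite}

/-- at every large scale `N` some `n ≤ N` has `a_n ≥ n √N / 64` -/
theorem every_scale (A : Set ℕ) (hA : IsPerfectDifferenceSet A) :
    ∀ᶠ N : ℕ in atTop, ∃ n, 1 ≤ n ∧ n ≤ N ∧ ∃ a ∈ A, ∃ b ∈ A, a = b + n ∧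
      (1 / 64 : ℝ) * n * Real.sqrt N ≤ a := by
  filter_upwards [eventually_ge_atTop (1000 ^ 2)] with N hN
  by_contra hcon
  push Not at hcon
  apply core_scale hA N (Nat.sqrt N)
  · rw [Nat.le_sqrt, ← pow_two]
    exact hN
  · exact Nat.sqrt_le' N
  · exact Nat.lt_succ_sqrt' N
  · intro a ha b hb d had hd1 hdN
    have h1 := hcon d hd1 hdN a ha b hb had
    have h2 : Real.sqrt N ≤ (Nat.sqrt N : ℝ) + 1 := by
      rw [Real.sqrt_le_left (by positivity)]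
      have := (Nat.lt_succ_sqrt' N).le
      rw [Nat.succ_eq_add_one] at this
      exact_mod_cast this
    have hd0 : (0 : ℝ) < d := by exact_mod_cast hd1
    have h3 : (64 : ℝ) * a ≤ d * ((Nat.sqrt N : ℝ) + 1) := by
      calc (64 : ℝ) * a ≤ 64 * (1 / 64 * d * Real.sqrt N) := by linarith
        _ = d * Real.sqrt N := by ring
        _ ≤ d * ((Nat.sqrt N : ℝ) + 1) := mul_le_mul_of_nonneg_left h2 hd0.le
    exact_mod_cast h3

theorem result :
    (∃ c : ℝ, 0 < c ∧ ∀ A : Set ℕ, IsPerfectDifferenceSet A → ∀ᶠ N : ℕ in atTop,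
      ∃ n, 1 ≤ n ∧ n ≤ N ∧ ∃ a ∈ A, ∃ b ∈ A, a = b + n ∧ c * n * Real.sqrt N ≤ a) ∧
    {G : ℕ → ℝ | Monotone G ∧ ∃ C : ℝ, ∃ᶠ n : ℕ in atTop, G n ≤ C * Real.sqrt n} ⊆
      growthClass ∧
    (∀ β : ℝ, β < 2 → ∃ δ : ℝ, 0 < δ ∧ ∀ A : Set ℕ, IsPerfectDifferenceSet A →
      ∃ᶠ N : ℕ in atTop, δ * N ≤
        {n : ℕ | 1 ≤ n ∧ n ≤ N ∧ ∃ a ∈ A, ∃ b ∈ A, a = b + n ∧ (N : ℝ) ^ β < a}.ncard) := by
  classical
  refine ⟨⟨1 / 64, by norm_num, every_scale⟩, ?_, ?_⟩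
  · rintro G ⟨hmono, C, hC⟩
    refine ⟨hmono, ?_⟩
    intro A hA
    obtain ⟨K, hK⟩ : ∃ K : ℝ, K = max C 1 := ⟨_, rfl⟩
    have hK0 : 0 < K := by rw [hK]; exact lt_of_lt_of_le one_pos (le_max_right _ _)
    have hCK : C ≤ K := by rw [hK]; exact le_max_left _ _
    refine ⟨1 / (64 * K), by positivity, ?_⟩
    rw [← Nat.frequently_atTop_iff_infinite, frequently_atTop]
    intro n₀
    -- the pairs with difference at most `n₀` are bounded
    have hex : ∀ d : ℕ, ∃ p : ℕ × ℕ, 1 ≤ d → p.1 ∈ A ∧ p.2 ∈ A ∧ p.1 = p.2 + d := by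
      intro d
      by_cases hd : 1 ≤ d
      · obtain ⟨p, hp, _⟩ := hA.2 d hd
        exact ⟨p, fun _ => hp⟩
      · exact ⟨(0, 0), fun h => absurd h hd⟩
    choose p hp using hex
    obtain ⟨B₀, hB₀⟩ : ∃ B₀ : ℕ, ∀ d < n₀, (p d).1 ≤ B₀ :=
      ⟨(Finset.range n₀).sup (fun d => (p d).1), fun d hd =>
        Finset.le_sup (f := fun d => (p d).1) (Finset.mem_range.mpr hd)⟩
    obtain ⟨N, hN1, hN2, hN3⟩ := (hC.and_eventually ((every_scale A hA).and
      (eventually_ge_atTop ((64 * (B₀ + 1)) ^ 2)))).exists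
    obtain ⟨n, hn1, hnN, a, ha, b, hb, hab, han⟩ := hN2
    refine ⟨n, ?_, hn1, a, ha, b, hb, hab, ?_⟩
    · by_contra hlt
      push Not at hlt
      obtain ⟨e1, e2, e3⟩ := hp n hn1
      have e4 := (pds_unique hA ha hb e1 e2 hn1 hab e3).1
      have e5 := hB₀ n hlt
      have e6 : (64 * (B₀ + 1) : ℝ) ≤ Real.sqrt N := by
        apply Real.le_sqrt_of_sq_le
        exact_mod_cast hN3
      have e7 : (1 : ℝ) ≤ n := by exact_mod_cast hn1
      have e8 : (a : ℝ) ≤ B₀ := by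
        rw [e4]
        exact_mod_cast e5
      have hB0 : (0 : ℝ) ≤ B₀ := Nat.cast_nonneg _
      nlinarith
    · have f1 : G n ≤ K * Real.sqrt N :=
        (hmono hnN).trans (hN1.trans (mul_le_mul_of_nonneg_right hCK (Real.sqrt_nonneg _)))
      calc 1 / (64 * K) * n * G n ≤ 1 / (64 * K) * n * (K * Real.sqrt N) :=
            mul_le_mul_of_nonneg_left f1 (by positivity)
        _ = 1 / 64 * n * Real.sqrt N := by field_simp
        _ ≤ a := han
  · intro β hβ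
    obtain ⟨δ, hδ, hall⟩ := no_hyp β hβ
    refine ⟨δ, hδ, ?_⟩
    intro A hA
    have hex : ∀ d : ℕ, ∃ p : ℕ × ℕ, 1 ≤ d → p.1 ∈ A ∧ p.2 ∈ A ∧ p.1 = p.2 + d := by
      intro d
      by_cases hd : 1 ≤ d
      · obtain ⟨p, hp, _⟩ := hA.2 d hd
        exact ⟨p, fun _ => hp⟩
      · exact ⟨(0, 0), fun h => absurd h hd⟩
    choose p hp using hex
    have h1 := hall A (fun d => (p d).1) (fun d => (p d).2) hA hp
    rw [Hyp, not_eventually] at h1
    refine (h1.and_eventually (eventually_ge_atTop 1)).mono ?_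
    rintro N ⟨h2, hN1⟩
    push Not at h2
    have h3 : ((Finset.Icc 1 N).filter (fun n => (p n).1 ≤ ⌊(N : ℝ) ^ β⌋₊)).card +
        ((Finset.Icc 1 N).filter (fun n => ¬ (p n).1 ≤ ⌊(N : ℝ) ^ β⌋₊)).card =
        (Finset.Icc 1 N).card := Finset.card_filter_add_card_filter_not _
    rw [Nat.card_Icc, Nat.add_sub_cancel] at h3
    have h4 : ((Finset.Icc 1 N).filter (fun n => ¬ (p n).1 ≤ ⌊(N : ℝ) ^ β⌋₊)).card ≤
        {n : ℕ | 1 ≤ n ∧ n ≤ N ∧ ∃ a ∈ A, ∃ b ∈ A, a = b + n ∧ (N : ℝ) ^ β < a}.ncard := by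
      rw [← Set.ncard_coe_finset]
      apply Set.ncard_le_ncard
      swap
      · exact (Set.finite_Icc 1 N).subset fun n hn => ⟨hn.1, hn.2.1⟩
      intro n hn
      have hn := Finset.mem_coe.1 hn
      rw [Finset.mem_filter, Finset.mem_Icc] at hn
      obtain ⟨e1, e2, e3⟩ := hp n hn.1.1
      refine ⟨hn.1.1, hn.1.2, _, e1, _, e2, e3, ?_⟩
      have := hn.2
      rw [not_le, Nat.floor_lt (by positivity)] at this
      exact this
    have h3' : (cnt (fun d => (p d).1) N ⌊(N : ℝ) ^ β⌋₊ : ℝ) +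
        ((Finset.Icc 1 N).filter (fun n => ¬ (p n).1 ≤ ⌊(N : ℝ) ^ β⌋₊)).card = N := by
      exact_mod_cast h3
    have h4' : (((Finset.Icc 1 N).filter (fun n => ¬ (p n).1 ≤ ⌊(N : ℝ) ^ β⌋₊)).card : ℝ) ≤
        {n : ℕ | 1 ≤ n ∧ n ≤ N ∧ ∃ a ∈ A, ∃ b ∈ A, a = b + n ∧ (N : ℝ) ^ β < a}.ncard := by
      exact_mod_cast h4
    linarith

end Pool.Agent.Results.MP_35c1fe_nt.EveryScale
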