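import Pool.Agent.H24.RCN.Fin

/-!
# Real class numbers and many classes, for the prime-power Nagell-Ljunggren equation
-/

set_option autoImplicit false

open NumberField

namespace Pool.Agent.Results.MP_4d5ac9_nt.RealClassTorsion

/-- Let `q = r^e` and `(q^d - 1)/(q - 1) = p^k`. Every prime factor `κ` of `k` which does not
divide `d - 1` divides the class number of the maximal real subfield of the `dκ`-th cyclotomic
field; the class group of the `d`-th cyclotomic field has at least `d` elements killed by `κ`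
(or `κ = 3`, and at least three), and at least `binom ((d-1)/3 + s, s)` elements killed by an odd
divisor `m >= 5 s` of `k`. -/
theorem result {r e d p k : ℕ} (hr : r.Prime) (he : 1 ≤ e) (hp : p.Prime) (hd : 4 ≤ d)
    (hk : 1 < k) (h : ((r ^ e) ^ d - 1) / (r ^ e - 1) = p ^ k) :
    (∀ κ : ℕ, Odd k → k ∣ r - 1 → κ.Prime → κ ∣ k → ¬ κ ∣ d - 1 →
      κ ∣ classNumber (maximalRealSubfield (CyclotomicField (d * κ) ℚ))) ∧
    (∀ κ : ℕ, κ.Prime → κ ≠ 2 → κ ∣ k → κ ∣ r - 1 → 33 ≤ r ^ e →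
      d ≤ Nat.card {c : ClassGroup (𝓞 (CyclotomicField d ℚ)) // c ^ κ = 1} ∨
      (κ = 3 ∧ r ≠ d ∧ (∀ j : ℕ, ¬ d ∣ r ^ j + 1) ∧
        3 ≤ Nat.card {c : ClassGroup (𝓞 (CyclotomicField d ℚ)) // c ^ κ = 1})) ∧
    (∀ m s : ℕ, Odd m → m ∣ k → m ∣ r - 1 → 33 ≤ r ^ e → 5 * s ≤ m →
      ((d - 1) / 3 + s).choose s ≤
        Nat.card {c : ClassGroup (𝓞 (CyclotomicField d ℚ)) // c ^ m = 1}) :=
  Pool.Agent.H24.RCN.realClassTorsion hr he hp hd hk h

end Pool.Agent.Results.MP_4d5ac9_nt.RealClassTorsion
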